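import Mathlib

namespace Pool.Agent.Results.MP_a5c736_co.NotNice

open Finset

/-- An m-fold cover of G: H is a graph on W, and L u is the fibre of p over u. -/
structure IsCover {V W : Type} (G : SimpleGraph V) (m : ℕ) (H : SimpleGraph W) (p : W → V) :
    Prop where
  clique : ∀ x y, x ≠ y → p x = p y → H.Adj x y
  matching : ∀ x y y', p x ≠ p y → p y = p y' → H.Adj x y → H.Adj x y' → y = y'
  nonadj : ∀ x y, H.Adj x y → p x = p y ∨ G.Adj (p x) (p y)
  size : ∀ u, {x | p x = u}.ncard = m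

/-- Every m-fold cover has an independent set with as many vertices as G. -/
def DPColorable {V : Type} [Fintype V] (G : SimpleGraph V) (m : ℕ) : Prop :=
  ∀ (W : Type) [Finite W] (H : SimpleGraph W) (p : W → V), IsCover G m H p →
    ∃ s : Finset W, H.IsNIndepSet (Fintype.card V) s

noncomputable def chiDP {V : Type} [Fintype V] (G : SimpleGraph V) : ℕ :=
  sInf {m | DPColorable G m}

noncomputable def alphaDP {V : Type} (G : SimpleGraph V) (t : ℕ) : ℕ :=
  sInf {a | ∃ (W : Type) (_ : Finite W) (H : SimpleGraph W) (p : W → V),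
    IsCover G t H p ∧ H.indepNum = a}

def PartiallyNice {V : Type} [Fintype V] (G : SimpleGraph V) : Prop :=
  ∀ t, 1 ≤ t → t ≤ chiDP G →
    ((t : ℚ) * Fintype.card V) / chiDP G ≤ alphaDP G t

abbrev V (r : ℕ) := Option Bool ⊕ (Bool × Fin r)

def adj {r : ℕ} : V r → V r → Prop
  | .inl a, .inl b => (a = none ∧ b ≠ none) ∨ (a ≠ none ∧ b = none)
  | .inl _, .inr _ => True
  | .inr _, .inl _ => True
  | .inr a, .inr b => a.1 = b.1 ∧ a.2 ≠ b.2

def G (r : ℕ) : SimpleGraph (V r) where
  Adj := adj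
  symm := ⟨by rintro (a | a) (b | b) h <;> simp only [adj] at * <;> tauto⟩
  loopless := ⟨by rintro (a | a) h <;> simp only [adj] at * <;> tauto⟩

lemma ext_rel {k : ℕ} (R : Fin k → Fin k → Prop) (h1 : ∀ a b b', R a b → R a b' → b = b')
    (h2 : ∀ a a' b, R a b → R a' b → a = a') : ∃ e : Equiv.Perm (Fin k), ∀ a b, R a b → e a = b := by
  classical
  let f : Fin k → Fin k := fun a => if h : ∃ b, R a b then h.choose else a
  have hf : ∀ a, (∃ b, R a b) → R a (f a) := fun a h => by
    simp only [f, dif_pos h]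
    exact h.choose_spec
  obtain ⟨g, hg⟩ := Set.MapsTo.exists_equiv_extend_of_card_eq (t := (univ : Finset (Fin k)))
    (by simp) (s := {a | ∃ b, R a b}) (f := f) (fun a _ => by simp)
    (fun a ha a' ha' h => h2 a a' (f a) (hf a ha) (h ▸ hf a' ha'))
  refine ⟨g.trans (Equiv.subtypeUnivEquiv (fun _ => mem_univ _)), fun a b hab => ?_⟩
  have := hg a ⟨b, hab⟩
  exact this.trans (h1 a _ _ (hf a ⟨b, hab⟩) hab)

lemma fresh {k : ℕ} (F : Finset (Fin k)) (h : F.card < k) : ∃ a, a ∉ F := by
  by_contra hc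
  push Not at hc
  rw [eq_univ_iff_forall.mpr hc] at h
  simp at h

lemma core0 {k : ℕ} (hk : 3 ≤ k) (σ τ ρ π : Equiv.Perm (Fin k)) : ∃ x t y, x ≠ σ t ∧ y ≠ τ t ∧
    (x = t ∨ x = y ∨ t = y) ∧ (t = ρ x ∨ ρ x = π y ∨ t = π y) := by
  by_contra h
  push Not at h
  have a : ∀ x, ρ x ≠ π x := by
    intro x hx
    obtain ⟨t, ht⟩ := fresh {σ.symm x, τ.symm x} (lt_of_le_of_lt card_le_two (by omega))
    simp only [mem_insert, mem_singleton, not_or] at ht
    exact (h x t x (fun e => ht.1 (by rw [e]; simp)) (fun e => ht.2 (by rw [e]; simp))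
      (Or.inr (Or.inl rfl))).2.1 hx
  have b : ∀ x, x = σ (ρ x) ∨ x = τ (ρ x) := by
    intro x
    by_contra hc
    push Not at hc
    exact (h x (ρ x) x hc.1 hc.2 (Or.inr (Or.inl rfl))).1 rfl
  have c : ∀ x, x = σ (π x) ∨ x = τ (π x) := by
    intro x
    by_contra hc
    push Not at hc
    exact (h x (π x) x hc.1 hc.2 (Or.inr (Or.inl rfl))).2.2 rfl
  have d1 : ∀ x, x = σ x ∨ π.symm (ρ x) = τ x := by
    intro x
    by_contra hc
    push Not at hc
    exact (h x x _ hc.1 hc.2 (Or.inl rfl)).2.1 (by simp)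
  have d2 : ∀ x, x = σ (π.symm (ρ x)) ∨ π.symm (ρ x) = τ (π.symm (ρ x)) := by
    intro x
    by_contra hc
    push Not at hc
    exact (h x _ _ hc.1 hc.2 (Or.inr (Or.inr rfl))).2.1 (by simp)
  have e : ∀ x, x = σ x ∨ π.symm x = τ x := by
    intro x
    by_contra hc
    push Not at hc
    exact (h x x _ hc.1 hc.2 (Or.inl rfl)).2.2 (by simp)
  have a' : ∀ x, π.symm (ρ x) ≠ x := fun x hx => a x (by rw [← Equiv.symm_apply_eq]; simpa using hx)
  have nf : ∀ x, x ≠ σ x := by
    intro x hx
    have h1 : π.symm (ρ x) = τ (π.symm (ρ x)) := by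
      rcases d2 x with h' | h'
      · exact absurd (σ.injective (h'.symm.trans hx)) (a' x)
      · exact h'
    set y := π.symm (ρ x)
    have h2 : y = σ y := by
      rcases d1 y with h' | h'
      · exact h'
      · exact absurd (h'.trans h1.symm) (a' y)
    have h3 : ρ y = y := by
      rcases b y with h' | h'
      · exact σ.injective (h'.symm.trans h2)
      · exact τ.injective (h'.symm.trans h1)
    have h4 : π y = y := by
      rcases c y with h' | h'
      · exact σ.injective (h'.symm.trans h2)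
      · exact τ.injective (h'.symm.trans h1)
    exact a y (h3.trans h4.symm)
  let x : Fin k := ⟨0, by omega⟩
  have f1 := (e x).resolve_left (nf x)
  have f2 := (d1 x).resolve_left (nf x)
  have f3 : ρ x = x := π.symm.injective (f2.trans f1.symm)
  have f4 := b x
  rw [f3] at f4 f2
  have f5 := f4.resolve_left (nf x)
  exact a' x (by rw [f3, f1, ← f5])

lemma core {k : ℕ} (hk : 3 ≤ k) (σ τ f1 f2 f3 g1 g2 g3 : Equiv.Perm (Fin k)) :
    ∃ x t y, σ t ≠ x ∧ τ t ≠ y ∧ ({f1 x, f2 t, f3 y} : Finset (Fin k)).card ≤ 2 ∧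
      ({g1 x, g2 t, g3 y} : Finset (Fin k)).card ≤ 2 := by
  obtain ⟨x, t, y, h1, h2, h3, h4⟩ := core0 hk (f1 * σ * f2⁻¹) (f3 * τ * f2⁻¹)
    (f2 * g2⁻¹ * g1 * f1⁻¹) (f2 * g2⁻¹ * g3 * f3⁻¹)
  have two : ∀ a b c : Fin k, (a = b ∨ a = c ∨ b = c) → ({a, b, c} : Finset (Fin k)).card ≤ 2 := by
    rintro a b c (rfl | rfl | rfl)
    · rw [insert_idem]; exact card_le_two
    · rw [insert_comm, pair_eq_singleton]; exact card_le_two
    · rw [pair_eq_singleton]; exact card_le_two
  refine ⟨f1⁻¹ x, f2⁻¹ t, f3⁻¹ y, fun h => h1 ?_, fun h => h2 ?_, two _ _ _ (by simpa using h3),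
    two _ _ _ ?_⟩
  · rw [Equiv.Perm.mul_apply, Equiv.Perm.mul_apply, h]
    simp
  · rw [Equiv.Perm.mul_apply, Equiv.Perm.mul_apply, h]
    simp
  · rcases h4 with h | h | h
    · left
      rw [h]
      simp
    · right; left
      simpa using h
    · right; right
      rw [h]
      simp

lemma greedy {r : ℕ} (P : Fin r → Fin r → Fin (r + 2) → Fin (r + 2))
    (F : Fin r → Finset (Fin (r + 2))) (hF : ∀ i, (F i).card ≤ 3) (i0 : Fin r)
    (h0 : (F i0).card ≤ 2) : ∃ c : Fin r → Fin (r + 2), (∀ i, c i ∉ F i) ∧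
      ∀ i j, i ≠ j → P i j (c i) ≠ c j ∨ P j i (c j) ≠ c i := by
  have add : ∀ (S : Finset (Fin r)) (a : Fin r), a ∉ S → (F a).card + S.card < r + 2 →
      (∃ c : Fin r → Fin (r + 2), (∀ i ∈ S, c i ∉ F i) ∧
        ∀ i ∈ S, ∀ j ∈ S, i ≠ j → P i j (c i) ≠ c j ∨ P j i (c j) ≠ c i) →
      ∃ c : Fin r → Fin (r + 2), (∀ i ∈ insert a S, c i ∉ F i) ∧
        ∀ i ∈ insert a S, ∀ j ∈ insert a S, i ≠ j → P i j (c i) ≠ c j ∨ P j i (c j) ≠ c i := by
    rintro S a ha hc ⟨c, h1, h2⟩
    obtain ⟨x, hx⟩ := fresh (F a ∪ S.image fun j => P j a (c j))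
      (lt_of_le_of_lt (card_union_le _ _) (lt_of_le_of_lt (by gcongr; exact card_image_le) hc))
    simp only [mem_union, mem_image, not_or, not_exists, not_and] at hx
    have u : ∀ i ∈ S, Function.update c a x i = c i := fun i hi =>
      Function.update_of_ne (fun e : i = a => ha (e ▸ hi)) _ _
    refine ⟨Function.update c a x, fun i hi => ?_, fun i hi j hj hij => ?_⟩
    · rcases mem_insert.mp hi with rfl | hi
      · simpa using hx.1
      · rw [u i hi]; exact h1 i hi
    · rcases mem_insert.mp hi with hi | hi <;> rcases mem_insert.mp hj with hj | hj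
      · exact absurd (hi.trans hj.symm) hij
      · right
        rw [u j hj, hi, Function.update_self]
        exact hx.2 j hj
      · left
        rw [u i hi, hj, Function.update_self]
        exact hx.2 i hi
      · rw [u i hi, u j hj]
        exact h2 i hi j hj hij
  have all : ∀ S : Finset (Fin r), S.card < r → ∃ c : Fin r → Fin (r + 2), (∀ i ∈ S, c i ∉ F i) ∧
        ∀ i ∈ S, ∀ j ∈ S, i ≠ j → P i j (c i) ≠ c j ∨ P j i (c j) ≠ c i := by
    intro S
    induction S using Finset.induction_on with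
    | empty => exact fun _ => ⟨fun _ => 0, by simp, by simp⟩
    | insert a S ha ih =>
      intro h
      rw [card_insert_of_notMem ha] at h
      exact add S a ha (by have := hF a; omega) (ih (by omega))
  have hc : (univ.erase i0).card = r - 1 := by simp
  have := i0.pos
  obtain ⟨c, h1, h2⟩ := add (univ.erase i0) i0 (by simp) (by omega) (all _ (by omega))
  rw [insert_erase (mem_univ _)] at h1 h2
  exact ⟨c, fun i => h1 i (mem_univ _), fun i j => h2 i (mem_univ _) j (mem_univ _)⟩

lemma upper (r : ℕ) : DPColorable (G (r + 1)) (r + 3) := by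
  classical
  intro W _ H p hc
  have he : ∀ u, Nonempty (Fin (r + 3) ≃ {x | p x = u}) := fun u =>
    ⟨(Finite.equivFinOfCardEq (by rw [← hc.size u]; rfl)).symm⟩
  let e := fun u => (he u).some
  have pe : ∀ u a, p (e u a) = u := fun u a => (e u a).2
  have hP : ∀ u v : V (r + 1), ∃ P : Equiv.Perm (Fin (r + 3)), ∀ a b,
      (u ≠ v ∧ H.Adj (e u a) (e v b)) → P a = b := by
    intro u v
    apply ext_rel
    · rintro a b b' ⟨h, h1⟩ ⟨-, h2⟩
      exact (e v).injective (Subtype.ext (hc.matching _ _ _ (by rwa [pe, pe]) (by rw [pe, pe]) h1 h2))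
    · rintro a a' b ⟨h, h1⟩ ⟨-, h2⟩
      exact (e u).injective (Subtype.ext
        (hc.matching _ _ _ (by rw [pe, pe]; exact h.symm) (by rw [pe, pe]) h1.symm h2.symm))
  choose P hP using hP
  obtain ⟨x, t, y, h1, h2, h3, h4⟩ := core (k := r + 3) (by omega)
    (P (.inl none) (.inl (some false))) (P (.inl none) (.inl (some true)))
    (P (.inl (some false)) (.inr (false, 0))) (P (.inl none) (.inr (false, 0)))
    (P (.inl (some true)) (.inr (false, 0))) (P (.inl (some false)) (.inr (true, 0)))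
    (P (.inl none) (.inr (true, 0))) (P (.inl (some true)) (.inr (true, 0)))
  have hb : ∀ b : Bool, ∃ c : Fin (r + 1) → Fin (r + 3),
      (∀ i, c i ∉ ({P (.inl (some false)) (.inr (b, i)) x, P (.inl none) (.inr (b, i)) t,
        P (.inl (some true)) (.inr (b, i)) y} : Finset (Fin (r + 3)))) ∧
      ∀ i j, i ≠ j → P (.inr (b, i)) (.inr (b, j)) (c i) ≠ c j ∨
        P (.inr (b, j)) (.inr (b, i)) (c j) ≠ c i := fun b =>
    greedy (fun i j => P (.inr (b, i)) (.inr (b, j))) _ (fun _ => card_le_three) 0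
      (by cases b <;> assumption)
  choose cb hb1 hb2 using hb
  simp only [mem_insert, mem_singleton, not_or] at hb1
  let c : V (r + 1) → Fin (r + 3) := fun v => match v with
    | .inl none => t
    | .inl (some false) => x
    | .inl (some true) => y
    | .inr (b, i) => cb b i
  have key : ∀ u v, (G (r + 1)).Adj u v → P u v (c u) ≠ c v ∨ P v u (c v) ≠ c u := by
    rintro ((_ | _ | _) | ⟨a, i⟩) ((_ | _ | _) | ⟨b, j⟩) h
    all_goals first
      | exact Or.inl h1 | exact Or.inr h1 | exact Or.inl h2 | exact Or.inr h2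
      | exact Or.inl (Ne.symm (hb1 _ _).1) | exact Or.inl (Ne.symm (hb1 _ _).2.1)
      | exact Or.inl (Ne.symm (hb1 _ _).2.2) | exact Or.inr (Ne.symm (hb1 _ _).1)
      | exact Or.inr (Ne.symm (hb1 _ _).2.1) | exact Or.inr (Ne.symm (hb1 _ _).2.2)
      | (obtain ⟨rfl, h⟩ : a = b ∧ i ≠ j := h; exact hb2 _ _ _ h)
      | (simp [G, adj] at h)
  have inj : Function.Injective fun u => (e u (c u) : W) := fun u v h => by
    have := congrArg p h
    simpa only [pe] using this
  refine ⟨univ.image fun u => (e u (c u) : W), ?_, by rw [card_image_of_injective _ inj]; rfl⟩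
  intro a ha b hb hab hadj
  simp only [coe_image, coe_univ, Set.image_univ, Set.mem_range] at ha hb
  obtain ⟨u, rfl⟩ := ha
  obtain ⟨v, rfl⟩ := hb
  have huv : u ≠ v := fun h => hab (h ▸ rfl)
  have := hc.nonadj _ _ hadj
  rw [pe, pe] at this
  rcases key u v (this.resolve_left huv) with h | h
  · exact h (hP u v _ _ ⟨huv, hadj⟩)
  · exact h (hP v u _ _ ⟨huv.symm, hadj.symm⟩)

def tw {r m : ℕ} (π : Equiv.Perm (Fin m)) : V r → V r → Equiv.Perm (Fin m)
  | .inl (some true), .inr (false, _) => π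
  | _, _ => 1

def H (r : ℕ) {m : ℕ} (π : Equiv.Perm (Fin m)) : SimpleGraph (V r × Fin m) where
  Adj x y := (x.1 = y.1 ∧ x.2 ≠ y.2) ∨ ((G r).Adj x.1 y.1 ∧ tw π x.1 y.1 x.2 = tw π y.1 x.1 y.2)
  symm := ⟨fun x y h => h.imp (fun h => ⟨h.1.symm, h.2.symm⟩) (fun h => ⟨h.1.symm, h.2.symm⟩)⟩
  loopless := ⟨fun x h => h.elim (fun h => h.2 rfl) (fun h => h.1.ne rfl)⟩

lemma cover (r : ℕ) {m : ℕ} (π : Equiv.Perm (Fin m)) : IsCover (G r) m (H r π) Prod.fst := by
  refine ⟨fun x y h1 h2 => Or.inl ⟨h2, fun h => h1 (Prod.ext h2 h)⟩, ?_,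
    fun x y h => h.imp (fun h => h.1) (fun h => h.1), fun u => ?_⟩
  · rintro x ⟨v, j⟩ ⟨v', j'⟩ h1 h2 h3 h4
    obtain rfl : v = v' := h2
    have a := h3.resolve_left (fun h => h1 h.1)
    have b := h4.resolve_left (fun h => h1 h.1)
    exact Prod.ext rfl ((tw π v x.1).injective (a.2.symm.trans b.2))
  · have : {x : V r × Fin m | x.1 = u} = (fun i => (u, i)) '' Set.univ := by
      ext ⟨v, i⟩
      simp [eq_comm]
    rw [this, Set.ncard_image_of_injective _ (fun i j h => by simpa using h)]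
    simp

lemma cnt {r m : ℕ} (f : Fin r → Fin m) (hf : Function.Injective f) (x y : Fin m)
    (hx : ∀ i, x ≠ f i) (hy : ∀ i, y ≠ f i) (h : x ≠ y) : r + 2 ≤ m := by
  have := card_le_univ (insert x (insert y (univ.image f)))
  rw [card_insert_of_notMem (by simp [h]; exact fun i => (hx i).symm),
    card_insert_of_notMem (by simp; exact fun i => (hy i).symm),
    card_image_of_injective _ hf, card_fin, Fintype.card_fin] at this
  omega

lemma small {r m : ℕ} (π : Equiv.Perm (Fin m)) (hm : m ≤ r + 1) (s : Finset (V r × Fin m))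
    (hs : (H r π).IsIndepSet s) : s.card + 1 ≤ Fintype.card (V r) ∧
      ((∀ i, π i ≠ i) → s.card + 2 ≤ Fintype.card (V r)) := by
  classical
  have hcard : (s.image Prod.fst).card = s.card := card_image_of_injOn fun x hx y hy h => by
    by_contra hne
    exact hs hx hy hne ((cover r π).clique x y hne h)
  set S := s.image Prod.fst with hS
  have ex : ∀ v : V r, v ∈ S → ∃ i, (v, i) ∈ s := fun v hv => by simpa [hS] using hv
  choose c hc using ex
  have ne : ∀ u v hu hv, (G r).Adj u v → tw π u v (c u hu) ≠ tw π v u (c v hv) :=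
    fun u v hu hv h e => hs (hc u hu) (hc v hv) (fun h' => h.ne (congrArg Prod.fst h'))
      (Or.inr ⟨h, e⟩)
  have inj : ∀ b (h : ∀ i, Sum.inr (b, i) ∈ S), Function.Injective fun i => c _ (h i) := by
    intro b h i j e
    by_contra hij
    exact ne _ _ (h i) (h j) ⟨rfl, hij⟩ e
  have miss : ∀ b : Bool, ∃ v, v ∉ S ∧ (v = .inl none ∨ v = .inl (some b) ∨ ∃ i, v = .inr (b, i)) := by
    intro b
    by_contra hn
    push Not at hn
    have h1 : Sum.inl none ∈ S := by
      by_contra h
      exact (hn _ h).1 rfl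
    have h2 : Sum.inl (some b) ∈ S := by
      by_contra h
      exact (hn _ h).2.1 rfl
    have h3 : ∀ i, Sum.inr (b, i) ∈ S := fun i => by
      by_contra h
      exact (hn _ h).2.2 i rfl
    have := cnt _ (inj b h3) (c _ h1) (c _ h2) (fun i => ne _ _ h1 (h3 i) trivial)
      (fun i => by cases b <;> exact ne _ _ h2 (h3 i) trivial)
      (by cases b <;> exact ne _ _ h1 h2 (by simp [G, adj]))
    omega
  have two : ∀ a b, a ∉ S → b ∉ S → a ≠ b → s.card + 2 ≤ Fintype.card (V r) := by
    intro a b ha hb hab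
    have := card_le_univ (insert a (insert b S))
    rw [card_insert_of_notMem (by simp [ha, hab]), card_insert_of_notMem hb] at this
    omega
  obtain ⟨a, ha, ha'⟩ := miss false
  obtain ⟨b, hb, hb'⟩ := miss true
  refine ⟨?_, fun hπ => ?_⟩
  · have := card_le_univ (insert a S)
    rw [card_insert_of_notMem ha] at this
    omega
  · by_cases hab : a = b
    · have hz : a = .inl none := by
        subst hab
        rcases ha' with h | h | ⟨i, h⟩
        · exact h
        · subst h
          simp at hb'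
        · subst h
          simp at hb'
      by_contra hn
      have all : ∀ v, v ≠ .inl none → v ∈ S := fun v hv => by
        by_contra h
        exact hn (two v a h ha (hz ▸ hv))
      have hu := all (.inl (some false)) (by simp)
      have hw := all (.inl (some true)) (by simp)
      have hA : ∀ b i, Sum.inr (b, i) ∈ S := fun b i => all _ (by simp)
      have e1 : c _ hu = π (c _ hw) := by
        by_contra h
        have := cnt _ (inj false (hA false)) _ _ (fun i => ne _ _ hu (hA false i) trivial)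
          (fun i => ne _ _ hw (hA false i) trivial) h
        omega
      have e2 : c _ hu = c _ hw := by
        by_contra h
        have := cnt _ (inj true (hA true)) _ _ (fun i => ne _ _ hu (hA true i) trivial)
          (fun i => ne _ _ hw (hA true i) trivial) h
        omega
      exact hπ _ (e1.symm.trans e2)
    · exact two a b ha hb hab

lemma chi (r : ℕ) : chiDP (G (r + 1)) = r + 3 := by
  apply le_antisymm (Nat.sInf_le (upper r))
  apply le_csInf ⟨_, upper r⟩
  intro m hm
  by_contra hc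
  obtain ⟨s, hs⟩ := hm _ (H (r + 1) 1) _ (cover _ _)
  have := (small 1 (by omega) s hs.1).1
  have := hs.2
  omega

theorem result (k : ℕ) (hk : 3 ≤ k) : ∃ (V : Type) (_ : Fintype V) (G : SimpleGraph V),
    Nonempty V ∧ chiDP G = k ∧ ¬ PartiallyNice G := by
  obtain ⟨r, rfl⟩ : ∃ r, k = r + 3 := ⟨k - 3, by omega⟩
  refine ⟨V (r + 1), inferInstance, G (r + 1), inferInstance, chi r, fun h => ?_⟩
  have h1 := h (r + 2) (by omega) (by rw [chi]; omega)
  have hn : Fintype.card (V (r + 1)) = 2 * r + 5 := by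
    simp [V]
    omega
  have h2 : alphaDP (G (r + 1)) (r + 2) ≤ 2 * r + 3 := by
    let π : Equiv.Perm (Fin (r + 2)) := Equiv.addRight 1
    refine le_trans (Nat.sInf_le ⟨_, inferInstance, H (r + 1) π, _, cover _ _, rfl⟩) ?_
    obtain ⟨s, hs⟩ := (H (r + 1) π).exists_isNIndepSet_indepNum
    have := (small π le_rfl s hs.1).2 (fun i => by simp [π])
    have := hs.2
    omega
  rw [chi, hn, div_le_iff₀ (by positivity)] at h1
  have h3 : (alphaDP (G (r + 1)) (r + 2) : ℚ) ≤ 2 * r + 3 := by exact_mod_cast h2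
  push_cast at h1
  nlinarith [(Nat.cast_nonneg r : (0 : ℚ) ≤ r)]

end Pool.Agent.Results.MP_a5c736_co.NotNice
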